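import Pool.Agent.PFC.StmtsB4b

/-!
# Squad PFC, row QIS: invariance under isomorphism of interior algebras
-/

set_option autoImplicit false

open scoped BigOperators TensorProduct

noncomputable section

namespace Pool.Agent.PFC.H85Q

open Pool.Agent.PFC

variable {F V : Type} [Field F] [CommGroup V]

theorem cj_apply {A : Type} [Ring A] [Algebra F A] (α : V →* A) (v : V) (a : A) :
    cj F α v a = α v * (a * α v⁻¹) := rfl

theorem iso_refl (X : IA F V) : Iso X X := ⟨AlgEquiv.refl, fun _ => rfl⟩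

theorem iso_symm {X Y : IA F V} (h : Iso X Y) : Iso Y X := by
  obtain ⟨e, he⟩ := h
  exact ⟨e.symm, fun v => by rw [← he v, AlgEquiv.symm_apply_apply]⟩

theorem iso_trans {X Y Z : IA F V} (h : Iso X Y) (h' : Iso Y Z) : Iso X Z := by
  obtain ⟨e, he⟩ := h
  obtain ⟨f, hf⟩ := h'
  exact ⟨e.trans f, fun v => by rw [AlgEquiv.trans_apply, he, hf]⟩

theorem e_cj {X Y : IA F V} (e : X.A ≃ₐ[F] Y.A) (he : ∀ v, e (X.ι v) = Y.ι v) (v : V) (a : X.A) :
    e (cj F X.ι v a) = cj F Y.ι v (e a) := by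
  rw [cj_apply, cj_apply, map_mul, map_mul, he, he]

theorem symm_he {X Y : IA F V} (e : X.A ≃ₐ[F] Y.A) (he : ∀ v, e (X.ι v) = Y.ι v) (v : V) :
    e.symm (Y.ι v) = X.ι v := by
  rw [← he v, AlgEquiv.symm_apply_apply]

/-- transport of the projective maps -/
theorem pt_transport {X Y : IA F V} (e : X.A ≃ₐ[F] Y.A) (he : ∀ v, e (X.ι v) = Y.ι v)
    (Q : Subgroup V) (T : X.A →ₗ[F] X.A) (hT : T ∈ PT (cj F X.ι) Q) :
    (e.toLinearMap ∘ₗ T) ∘ₗ e.symm.toLinearMap ∈ PT (cj F Y.ι) Q := by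
  unfold PT at hT
  induction hT using Submodule.span_induction with
  | mem T hT =>
    obtain ⟨K, S, h, hK, hS, hc, hs⟩ := hT
    apply Submodule.subset_span
    refine ⟨K, S, (e.toLinearMap ∘ₗ h) ∘ₗ e.symm.toLinearMap, hK, hS, ?_, ?_⟩
    · intro k hk m
      have h1 := hc k hk (e.symm m)
      show cj F Y.ι k (e (h (e.symm m))) = e (h (e.symm (cj F Y.ι k m)))
      rw [← e_cj e he, h1, e_cj e.symm (symm_he e he)]
    · intro m
      show e (T (e.symm m)) = ∑ x ∈ S, cj F Y.ι x (e (h (e.symm (cj F Y.ι x⁻¹ m))))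
      rw [hs, map_sum]
      refine Finset.sum_congr rfl fun x _ => ?_
      rw [e_cj e he, e_cj e.symm (symm_he e he)]
  | zero =>
    rw [LinearMap.comp_zero, LinearMap.zero_comp]
    exact Submodule.zero_mem _
  | add T T' _ _ hT hT' =>
    rw [LinearMap.comp_add, LinearMap.add_comp]
    exact Submodule.add_mem _ hT hT'
  | smul a T _ hT =>
    rw [LinearMap.comp_smul, LinearMap.smul_comp]
    exact Submodule.smul_mem _ _ hT

theorem bq_iso {X X' Y Y' : IA F V} {Q : Subgroup V} (h : Iso X X') (h' : Iso Y Y')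
    (hB : BQ X Y Q) : BQ X' Y' Q := by
  obtain ⟨e, he⟩ := h
  obtain ⟨f, hf⟩ := h'
  obtain ⟨β, s, hb⟩ := hB
  have he' := symm_he e he
  have hf' := symm_he f hf
  have hfx : ∀ a ∈ Fx (cj F X'.ι) Q, e.symm a ∈ Fx (cj F X.ι) Q := by
    intro a ha q hq
    rw [← e_cj e.symm he']
    exact congrArg e.symm (ha q hq)
  refine ⟨(f.toLinearMap ∘ₗ β) ∘ₗ e.symm.toLinearMap, (e.toLinearMap ∘ₗ s) ∘ₗ f.symm.toLinearMap,
    ⟨⟨?_, ?_, ?_, ?_, ?_⟩, ?_, ?_⟩⟩
  · intro n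
    show f (β (e.symm (e (s (f.symm n))))) = n
    rw [AlgEquiv.symm_apply_apply, hb.bs, AlgEquiv.apply_symm_apply]
  · intro v m
    show f (β (e.symm (cj F X'.ι v m))) = cj F Y'.ι v (f (β (e.symm m)))
    rw [e_cj e.symm he', hb.eb, e_cj f hf]
  · intro v n
    show e (s (f.symm (cj F Y'.ι v n))) = cj F X'.ι v (e (s (f.symm n)))
    rw [e_cj f.symm hf', hb.es, e_cj e he]
  · intro q hq n
    have h1 := hb.tr q hq (f.symm n)
    have h2 := congrArg f h1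
    rwa [e_cj f hf, AlgEquiv.apply_symm_apply] at h2
  · have h1 := pt_transport e he Q _ hb.hg
    have h2 : (e.toLinearMap ∘ₗ (LinearMap.id - s ∘ₗ β)) ∘ₗ e.symm.toLinearMap =
        LinearMap.id - ((e.toLinearMap ∘ₗ s) ∘ₗ f.symm.toLinearMap) ∘ₗ
          ((f.toLinearMap ∘ₗ β) ∘ₗ e.symm.toLinearMap) := by
      apply LinearMap.ext
      intro m
      show e (e.symm m - s (β (e.symm m))) = m - e (s (f.symm (f (β (e.symm m)))))
      rw [AlgEquiv.symm_apply_apply, map_sub, AlgEquiv.apply_symm_apply]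
    rwa [h2] at h1
  · intro a ha b hb'
    show f (β (e.symm (a * b))) = f (β (e.symm a)) * f (β (e.symm b))
    rw [map_mul, hb.mul _ (hfx a ha) _ (hfx b hb'), map_mul]
  · intro v
    show f (β (e.symm (X'.ι v))) = Y'.ι v
    rw [he', hb.cov, hf]

theorem cp_iso {X Y : IA F V} (h : Iso X Y) (hX : CP X) : CP Y := by
  obtain ⟨e, he⟩ := h
  have he' := symm_he e he
  obtain ⟨Ω, i1, i2, b, c, ⟨h1, h2, h3⟩, h4⟩ := hX
  refine ⟨Ω, i1, i2, fun ω => e (b ω), fun ω => (c ω) ∘ₗ e.symm.toLinearMap, ⟨?_, ?_, ?_⟩, h4⟩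
  · intro h ω
    show e (b (h • ω)) = cj F Y.ι h (e (b ω))
    rw [h1, e_cj e he]
  · intro h ω m
    show c (h • ω) (e.symm (cj F Y.ι h m)) = c ω (e.symm m)
    rw [e_cj e.symm he', h2]
  · intro m
    show ∑ ω, c ω (e.symm m) • e (b ω) = m
    have h5 := congrArg e (h3 (e.symm m))
    rw [map_sum, AlgEquiv.apply_symm_apply] at h5
    rw [← h5]
    refine Finset.sum_congr rfl fun ω _ => ?_
    rw [map_smul, h5]

theorem mx_iso {X Y : IA F V} (h : Iso X Y) (hX : Mx X) : Mx Y := by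
  obtain ⟨e, -⟩ := h
  obtain ⟨n, hn, ⟨g⟩⟩ := hX
  exact ⟨n, hn, ⟨e.symm.trans g⟩⟩

theorem ret_iso {X Y : IA F V} (h : Iso X Y) (hX : Ret X) : Ret Y := by
  obtain ⟨e, he⟩ := h
  obtain ⟨p, h1, h2, h3, h4, h5⟩ := hX
  refine ⟨e p, ?_, ?_, ?_, ?_, ?_⟩
  · rw [← map_mul, h1]
  · intro h0
    exact h2 ((map_eq_zero_iff e e.injective).mp h0)
  · intro v
    rw [← he, ← map_mul, h3]
  · intro v
    rw [← he, ← map_mul, h4]
  · intro a
    obtain ⟨c, hc⟩ := h5 (e.symm a)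
    refine ⟨c, ?_⟩
    have h6 := congrArg e hc
    rwa [map_mul, map_mul, AlgEquiv.apply_symm_apply, map_smul] at h6

theorem isoT_tens {σ : MulAut V} {X X' Y Y' : IA F V} (h : IsoT σ X X') (h' : IsoT σ Y Y') :
    IsoT σ (X.tens Y) (X'.tens Y') := by
  obtain ⟨e, he⟩ := h
  obtain ⟨f, hf⟩ := h'
  refine ⟨Algebra.TensorProduct.congr e f, fun v => ?_⟩
  show Algebra.TensorProduct.congr e f (X.ι v ⊗ₜ[F] Y.ι v) = X'.ι (σ v) ⊗ₜ[F] Y'.ι (σ v)
  rw [Algebra.TensorProduct.congr_apply, Algebra.TensorProduct.map_tmul]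
  show e (X.ι v) ⊗ₜ[F] f (Y.ι v) = _
  rw [he, hf]

theorem isoT_op {σ : MulAut V} {X Y : IA F V} (h : IsoT σ X Y) : IsoT σ X.op Y.op := by
  obtain ⟨e, he⟩ := h
  refine ⟨AlgEquiv.op e, fun v => ?_⟩
  show MulOpposite.op (e (X.ι v⁻¹)) = MulOpposite.op (Y.ι (σ v)⁻¹)
  rw [he, map_inv]

theorem isoT_one {X Y : IA F V} : IsoT 1 X Y ↔ Iso X Y := Iff.rfl

theorem comm_iso (X Y : IA F V) : Iso (X.tens Y) (Y.tens X) := by
  refine ⟨Algebra.TensorProduct.comm F X.A Y.A, fun v => ?_⟩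
  rfl

theorem assoc_iso (X Y Z : IA F V) : Iso ((X.tens Y).tens Z) (X.tens (Y.tens Z)) := by
  refine ⟨Algebra.TensorProduct.assoc F F F X.A Y.A Z.A, fun v => ?_⟩
  rfl

theorem lid_iso (X : IA F V) : Iso ((IA.one F V).tens X) X := by
  refine ⟨Algebra.TensorProduct.lid F X.A, fun v => ?_⟩
  show Algebra.TensorProduct.lid F X.A ((1 : F) ⊗ₜ[F] X.ι v) = X.ι v
  rw [Algebra.TensorProduct.lid_tmul, one_smul]

theorem one_op : Iso (IA.one F V).op (IA.one F V) := by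
  refine ⟨(AlgEquiv.toOpposite F F).symm, fun v => ?_⟩
  show MulOpposite.unop (MulOpposite.op (1 : F)) = 1
  rfl

/-- QIS -/
theorem qis : QisStmt := by
  intro F V _ _ _
  refine ⟨iso_refl, fun X Y h => iso_symm h, fun X Y Z h h' => iso_trans h h',
    fun X X' Y Y' Q h h' hB => bq_iso h h' hB, fun X Y h => cp_iso h, fun X Y h => mx_iso h,
    fun X Y h => ret_iso h, ?_, ?_, comm_iso, assoc_iso, lid_iso, one_op, ?_,
    fun X Y => isoT_one, fun σ X X' Y Y' h h' => isoT_tens h h', fun σ X Y h => isoT_op h, ?_⟩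
  · intro X X' Y Y' h h'
    exact isoT_one.mp (isoT_tens (isoT_one.mpr h) (isoT_one.mpr h'))
  · intro X Y h
    exact isoT_one.mp (isoT_op (isoT_one.mpr h))
  · rintro σ τ X Y Z ⟨e, he⟩ ⟨f, hf⟩
    exact ⟨e.trans f, fun v => by rw [AlgEquiv.trans_apply, he, hf]; rfl⟩
  · intro σ
    exact ⟨AlgEquiv.refl, fun v => rfl⟩

end Pool.Agent.PFC.H85Q
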