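import Pool.Agent.PFC.StmtsB3

/-!
# Squad PFC, row RED: a finite-dimensional commutative algebra spanned by `ℓ`-th powers is reduced
-/

set_option autoImplicit false

namespace Pool.Agent.PFC.H85

open Pool.Agent.PFC.B3

/-- the span of the `ℓ ^ n`-th powers is everything -/
theorem span_pow (ℓ : ℕ) [Fact ℓ.Prime] (L D : Type) [Field L] [CharP L ℓ] [CommRing D]
    [Algebra L D] [Nontrivial D]
    (h : Submodule.span L (Set.range fun d : D => d ^ ℓ) = ⊤) (n : ℕ) :
    Submodule.span L (Set.range fun d : D => d ^ (ℓ ^ n)) = ⊤ := by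
  haveI : CharP D ℓ := charP_of_injective_algebraMap (algebraMap L D).injective ℓ
  induction n with
  | zero =>
    rw [eq_top_iff]
    intro x _
    apply Submodule.subset_span
    exact ⟨x, by simp⟩
  | succ n ih =>
    rw [eq_top_iff, ← h, Submodule.span_le]
    rintro _ ⟨d, rfl⟩
    have hd : d ∈ Submodule.span L (Set.range fun d : D => d ^ (ℓ ^ n)) := by
      rw [ih]
      exact Submodule.mem_top
    show d ^ ℓ ∈ Submodule.span L (Set.range fun d : D => d ^ (ℓ ^ (n + 1)))
    induction hd using Submodule.span_induction with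
    | mem x hx =>
      obtain ⟨y, rfl⟩ := hx
      apply Submodule.subset_span
      refine ⟨y, ?_⟩
      show y ^ (ℓ ^ (n + 1)) = (y ^ (ℓ ^ n)) ^ ℓ
      rw [← pow_mul, pow_succ]
    | zero =>
      rw [zero_pow (Fact.out : ℓ.Prime).ne_zero]
      exact Submodule.zero_mem _
    | add x y _ _ hx hy =>
      rw [add_pow_char]
      exact Submodule.add_mem _ hx hy
    | smul a x _ hx =>
      rw [smul_pow]
      exact Submodule.smul_mem _ _ hx

/-- RED -/
theorem red : RedStmt := by
  intro ℓ _ L D _ _ _ _ _ h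
  rcases subsingleton_or_nontrivial D with hs | hn
  · exact ⟨fun x _ => Subsingleton.elim _ _⟩
  haveI : CharP D ℓ := charP_of_injective_algebraMap (algebraMap L D).injective ℓ
  haveI : IsNoetherianRing D := IsNoetherianRing.of_finite L D
  obtain ⟨m, hm⟩ := IsNoetherianRing.isNilpotent_nilradical D
  have hℓ : 1 < ℓ := (Fact.out : ℓ.Prime).one_lt
  have hmn : m ≤ ℓ ^ m := (Nat.lt_pow_self hℓ).le
  -- nilpotent elements are killed by the power
  have hkill : ∀ x ∈ nilradical D, x ^ (ℓ ^ m) = 0 := by
    intro x hx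
    have h1 : x ^ m ∈ (nilradical D) ^ m := Ideal.pow_mem_pow hx m
    rw [hm] at h1
    exact pow_eq_zero_of_le hmn (by simpa using h1)
  set N : Submodule L D := (nilradical D).restrictScalars L with hN
  obtain ⟨W, hW⟩ := Submodule.exists_isCompl N
  have hdim := Submodule.finrank_add_eq_of_isCompl hW
  have hspan := span_pow ℓ L D h m
  let b := Module.finBasis L W
  have hle : Submodule.span L (Set.range fun d : D => d ^ (ℓ ^ m)) ≤
      Submodule.span L (Set.range fun i => ((b i : W) : D) ^ (ℓ ^ m)) := by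
    rw [Submodule.span_le]
    rintro _ ⟨d, rfl⟩
    have hd : d ∈ N ⊔ W := by
      rw [hW.sup_eq_top]
      exact Submodule.mem_top
    obtain ⟨ν, hν, w, hw, rfl⟩ := Submodule.mem_sup.mp hd
    show (ν + w) ^ (ℓ ^ m) ∈ _
    rw [add_pow_char_pow, hkill ν hν, zero_add]
    have hrep : w = ∑ i, (b.repr ⟨w, hw⟩ i) • ((b i : W) : D) := by
      have h3 := congrArg (fun z : W => (z : D)) (b.sum_repr ⟨w, hw⟩)
      simp only [Submodule.coe_sum, Submodule.coe_smul] at h3
      exact h3.symm
    rw [hrep, sum_pow_char_pow]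
    refine Submodule.sum_mem _ fun i _ => ?_
    rw [smul_pow]
    exact Submodule.smul_mem _ _ (Submodule.subset_span ⟨i, rfl⟩)
  rw [hspan, top_le_iff] at hle
  have hcard : Module.finrank L D ≤ Module.finrank L W := by
    have h4 := finrank_range_le_card (R := L) (fun i => ((b i : W) : D) ^ (ℓ ^ m))
    unfold Set.finrank at h4
    rw [hle, finrank_top, Fintype.card_fin] at h4
    exact h4
  have h0 : Module.finrank L N = 0 := by omega
  have hbot : N = ⊥ := Submodule.finrank_eq_zero.mp h0
  refine ⟨fun x hx => ?_⟩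
  have h5 : x ∈ N := by
    rw [hN]
    exact mem_nilradical.mpr hx
  rw [hbot] at h5
  exact (Submodule.mem_bot L).mp h5

end Pool.Agent.PFC.H85
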